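import Mathlib

/-!
Colourings of a product of `n` odd cycles without a difference which is about half a turn in some
coordinate need at least `2 ^ (n + 1) - 1` colours.
-/

namespace Pool.Agent.H3.FC.Tor

open Finset

lemma odd_cycle (h : ℕ) (P : Finset (ZMod (2 * h + 1))) (hP : ∀ z ∈ P, z + (h : ZMod (2 * h + 1)) ∉ P) :
    P.card ≤ h := by
  classical
  have hd : Disjoint P (P.map (addRightEmbedding (h : ZMod (2 * h + 1)))) := by
    rw [Finset.disjoint_left]
    intro x hx hx'
    rw [Finset.mem_map] at hx'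
    obtain ⟨z, hz, rfl⟩ := hx'
    exact hP z hz hx
  have h1 := Finset.card_union_of_disjoint hd
  have h2 : (P ∪ P.map (addRightEmbedding (h : ZMod (2 * h + 1)))).card ≤ 2 * h + 1 := by
    refine (Finset.card_le_univ _).trans ?_
    rw [ZMod.card]
  rw [Finset.card_map] at h1
  omega

theorem lb (n : ℕ) : ∀ (h : Fin n → ℕ) {α : Type} [DecidableEq α]
    (c : (∀ a, ZMod (2 * h a + 1)) → α),
    (∀ g g' a, c g = c g' → g' a ≠ g a + (h a : ZMod (2 * h a + 1))) →
    2 ^ (n + 1) - 1 ≤ (Finset.univ.image c).card := by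
  induction n with
  | zero =>
    intro h α _ c _
    have : 0 < (Finset.univ.image c).card := by
      rw [Finset.card_pos, Finset.image_nonempty]
      exact ⟨fun a => 0, Finset.mem_univ _⟩
    norm_num at this ⊢
    try omega
  | succ n ih =>
    intro h α _ c hc
    -- slices
    let cz : ZMod (2 * h 0 + 1) → (∀ a : Fin n, ZMod (2 * h a.succ + 1)) → α :=
      fun z g => c (Fin.cons (α := fun a => ZMod (2 * h a + 1)) z g)
    have h1 : ∀ z, 2 ^ (n + 1) - 1 ≤ (Finset.univ.image (cz z)).card := by
      intro z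
      apply ih (fun a => h a.succ)
      intro g g' a hgg
      have := hc _ _ a.succ hgg
      simpa only [Fin.cons_succ] using this
    have h2 : ∀ α' ∈ Finset.univ.image c,
        (Finset.univ.filter (fun z => α' ∈ Finset.univ.image (cz z))).card ≤ h 0 := by
      intro α' _
      apply odd_cycle
      intro z hz hz'
      rw [Finset.mem_filter] at hz hz'
      obtain ⟨g, _, hg⟩ := Finset.mem_image.1 hz.2
      obtain ⟨g', _, hg'⟩ := Finset.mem_image.1 hz'.2
      have := hc _ _ 0 (hg.trans hg'.symm)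
      simp only [Fin.cons_zero] at this
      exact this rfl
    have h3 := Finset.sum_card_bipartiteAbove_eq_sum_card_bipartiteBelow
      (s := (Finset.univ : Finset (ZMod (2 * h 0 + 1)))) (t := Finset.univ.image c)
      (fun z α' => α' ∈ Finset.univ.image (cz z))
    have h4 : (2 * h 0 + 1) * (2 ^ (n + 1) - 1) ≤ ∑ z : ZMod (2 * h 0 + 1),
        ((Finset.univ.image c).bipartiteAbove
          (fun z α' => α' ∈ Finset.univ.image (cz z)) z).card := by
      have h5 : ∑ _z : ZMod (2 * h 0 + 1), (2 ^ (n + 1) - 1) = (2 * h 0 + 1) * (2 ^ (n + 1) - 1) := by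
        rw [Finset.sum_const, Finset.card_univ, ZMod.card, smul_eq_mul]
      rw [← h5]
      apply Finset.sum_le_sum
      intro z _
      refine (h1 z).trans (Finset.card_le_card ?_)
      intro x hx
      rw [Finset.mem_bipartiteAbove]
      refine ⟨?_, hx⟩
      obtain ⟨g, _, hg⟩ := Finset.mem_image.1 hx
      exact Finset.mem_image.2 ⟨_, Finset.mem_univ _, hg⟩
    have h6 : ∑ b ∈ Finset.univ.image c, ((Finset.univ : Finset (ZMod (2 * h 0 + 1))).bipartiteBelow
          (fun z α' => α' ∈ Finset.univ.image (cz z)) b).card ≤ (Finset.univ.image c).card * h 0 := by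
      have h12 : (Finset.univ.image c).card * h 0 = ∑ _b ∈ Finset.univ.image c, h 0 := by
        rw [Finset.sum_const, smul_eq_mul]
      exact (Finset.sum_le_sum h2).trans h12.ge
    have h7 : (2 * h 0 + 1) * (2 ^ (n + 1) - 1) ≤ (Finset.univ.image c).card * h 0 :=
      h4.trans (h3.trans_le h6)
    have h8 : 1 ≤ 2 ^ (n + 1) := Nat.one_le_two_pow
    by_contra hcon
    push Not at hcon
    have h9 : (Finset.univ.image c).card ≤ 2 * (2 ^ (n + 1) - 1) := by
      have : 2 ^ (n + 1 + 1) = 2 * 2 ^ (n + 1) := by ring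
      omega
    have h10 : (Finset.univ.image c).card * h 0 ≤ 2 * (2 ^ (n + 1) - 1) * h 0 :=
      Nat.mul_le_mul_right _ h9
    have h11 : 1 ≤ 2 ^ (n + 1) - 1 := by
      have : 2 ^ (n + 1) = 2 * 2 ^ n := by ring
      have : 1 ≤ 2 ^ n := Nat.one_le_two_pow
      omega
    nlinarith

end Pool.Agent.H3.FC.Tor
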