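import Mathlib
import Pool.Agent.H3.FC.Tor

/-!
One scale: odd moduli with thick walls which contain no primes.
-/

namespace Pool.Agent.H3.FC.Wall

open Finset

/-- the label of `x`: the half turn which contains `x + s` modulo `2 * h + 1` -/
def lab (h s D x : ℕ) : ZMod 2 :=
  if D ≤ (x + s) % (2 * h + 1) ∧ (x + s) % (2 * h + 1) < h + D then 1 else 0

/-- the residue of `x + s` is not in the walls -/
def Off (h s D x : ℕ) : Prop :=
  (2 * D < (x + s) % (2 * h + 1) ∧ (x + s) % (2 * h + 1) < h) ∨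
    h + 2 * D < (x + s) % (2 * h + 1)

lemma res_add (h s x t : ℕ) (ht : t ≤ 2 * h + 1) :
    (x + t + s) % (2 * h + 1) = (x + s) % (2 * h + 1) + t ∨
      (x + t + s) % (2 * h + 1) + (2 * h + 1) = (x + s) % (2 * h + 1) + t := by
  have h1 : (x + t + s) % (2 * h + 1) = ((x + s) % (2 * h + 1) + t) % (2 * h + 1) := by
    rw [Nat.mod_add_mod]
    congr 1
    omega
  have h2 := Nat.mod_lt (x + s) (show 2 * h + 1 > 0 by omega)
  rw [h1]
  set r := (x + s) % (2 * h + 1) with hr
  rcases Nat.lt_or_ge (r + t) (2 * h + 1) with h3 | h3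
  · left; exact Nat.mod_eq_of_lt h3
  · right
    rw [Nat.mod_eq_sub_mod h3]
    rcases Nat.lt_or_ge (r + t - (2 * h + 1)) (2 * h + 1) with h4 | h4
    · rw [Nat.mod_eq_of_lt h4]; omega
    · omega

lemma lab_mod (h s D x t t' : ℕ) (ht : t ≡ t' [MOD 2 * h + 1]) :
    lab h s D (x + t) = lab h s D (x + t') := by
  have : (x + t + s) % (2 * h + 1) = (x + t' + s) % (2 * h + 1) :=
    (Nat.ModEq.add_right s (Nat.ModEq.add_left x ht))
  unfold lab
  rw [this]

lemma lab_small (h s D x t : ℕ) (hx : Off h s D x) (ht : t ≤ D) :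
    lab h s D (x + t) = lab h s D x := by
  have h2 := Nat.mod_lt (x + s) (show 2 * h + 1 > 0 by omega)
  have h3 : t ≤ 2 * h + 1 := by
    rcases hx with hx | hx <;> omega
  have h4 := res_add h s x t h3
  unfold lab
  unfold Off at hx
  have : (D ≤ (x + t + s) % (2 * h + 1) ∧ (x + t + s) % (2 * h + 1) < h + D) ↔
      (D ≤ (x + s) % (2 * h + 1) ∧ (x + s) % (2 * h + 1) < h + D) := by
    omega
  simp only [this]

lemma lab_flip (h s D x t : ℕ) (hx : Off h s D x) (hD : 1 ≤ D) (ht : t = h ∨ t = h + 1) :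
    lab h s D (x + t) ≠ lab h s D x := by
  have h2 := Nat.mod_lt (x + s) (show 2 * h + 1 > 0 by omega)
  have h3 : t ≤ 2 * h + 1 := by omega
  have h4 := res_add h s x t h3
  have h5 := Nat.mod_lt (x + t + s) (show 2 * h + 1 > 0 by omega)
  unfold lab
  unfold Off at hx
  by_cases hA : D ≤ (x + s) % (2 * h + 1) ∧ (x + s) % (2 * h + 1) < h + D
  · have hB : ¬ (D ≤ (x + t + s) % (2 * h + 1) ∧ (x + t + s) % (2 * h + 1) < h + D) := by
      omega
    rw [if_pos hA, if_neg hB]
    decide
  · have hB : D ≤ (x + t + s) % (2 * h + 1) ∧ (x + t + s) % (2 * h + 1) < h + D := by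
      omega
    rw [if_neg hA, if_pos hB]
    decide

/-- one modulus with walls -/
lemma one_modulus (Q D : ℕ) (hQ : 0 < Q) : ∃ h s : ℕ, 1 ≤ h ∧ Nat.Coprime Q (2 * h + 1) ∧
    ∀ x : ℕ, x.Prime → Off h s D x := by
  classical
  set L := 2 * (2 * D + 1) with hL
  let pr : ℕ → ℕ := fun i => Nat.nth Nat.Prime (Q + 1 + i)
  have hpr : ∀ i, (pr i).Prime := fun i => Nat.prime_nth_prime _
  have hlt : ∀ i, Q + 2 < pr i := fun i => by
    have := Nat.add_two_le_nth_prime (Q + 1 + i)
    have h2 : pr i = Nat.nth Nat.Prime (Q + 1 + i) := rfl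
    omega
  have hinj : ∀ i j, i ≠ j → pr i ≠ pr j := by
    intro i j hij h
    have := Nat.nth_injective Nat.infinite_setOfPred_prime h
    omega
  let c : ℕ → ℕ := fun i => (pr i) ^ 2
  have hcop : ∀ i j, i ≠ j → Nat.Coprime (c i) (c j) := fun i j hij =>
    Nat.Coprime.pow 2 2 ((Nat.coprime_primes (hpr i) (hpr j)).2 (hinj i j hij))
  have hQc : ∀ i, Nat.Coprime Q (c i) := by
    intro i
    apply Nat.Coprime.pow_right
    rw [Nat.coprime_comm, Nat.Prime.coprime_iff_not_dvd (hpr i)]
    intro hd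
    have := Nat.le_of_dvd hQ hd
    have := hlt i
    omega
  set M := ∏ i ∈ Finset.range L, c i with hM
  have hodd : Odd M := by
    rw [hM]
    apply Finset.prod_induction _ (fun m => Odd m) (fun a b => Odd.mul) odd_one
    intro i _
    apply Odd.pow
    exact (hpr i).odd_of_ne_two (by have := hlt i; omega)
  obtain ⟨h, hh⟩ := hodd
  have hcM : ∀ i ∈ Finset.range L, c i ∣ M := fun i hi => Finset.dvd_prod_of_mem _ hi
  have hMpos : 0 < M := by omega
  have hh1 : 1 ≤ h := by
    have h1 := Nat.le_of_dvd hMpos (hcM 0 (Finset.mem_range.2 (by omega)))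
    have h2 := hlt 0
    have h3 : pr 0 ≤ c 0 := Nat.le_self_pow two_ne_zero _
    omega
  let tg : ℕ → ℕ := fun i => if i < 2 * D + 1 then i else h + (i - (2 * D + 1))
  obtain ⟨s, hs⟩ := Nat.chineseRemainderOfFinset tg c (Finset.range L)
    (fun i _ => pow_ne_zero 2 (hpr i).ne_zero) (fun i _ j _ hij => hcop i j hij)
  refine ⟨h, s, hh1, ?_, ?_⟩
  · rw [← hh, hM]
    exact Nat.Coprime.prod_right (fun i _ => hQc i)
  · intro x hx
    have hno : ∀ i ∈ Finset.range L, (x + s) % (2 * h + 1) ≠ tg i := by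
      intro i hi heq
      have h1 : x + s ≡ tg i [MOD c i] := by
        have h2 : (x + s) % (2 * h + 1) ≡ x + s [MOD 2 * h + 1] := Nat.mod_modEq _ _
        rw [heq] at h2
        exact (h2.symm).of_dvd (hh ▸ hcM i hi)
      have h3 : x + s ≡ 0 + s [MOD c i] := by
        rw [Nat.zero_add]
        exact h1.trans (hs i hi).symm
      have h4 : x ≡ 0 [MOD c i] := Nat.ModEq.add_right_cancel' s h3
      have h5 : c i ∣ x := (Nat.modEq_zero_iff_dvd).1 h4
      rcases (Nat.dvd_prime hx).1 h5 with h6 | h6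
      · have h7 : pr i ≤ c i := Nat.le_self_pow two_ne_zero _
        have := hlt i
        omega
      · rw [← h6] at hx
        exact Nat.Prime.not_prime_pow (le_refl 2) hx
    unfold Off
    by_contra hcon
    have h2 := Nat.mod_lt (x + s) (show 2 * h + 1 > 0 by omega)
    rcases Nat.lt_or_ge ((x + s) % (2 * h + 1)) (2 * D + 1) with h3 | h3
    · apply hno ((x + s) % (2 * h + 1)) (Finset.mem_range.2 (by omega))
      simp only [tg]
      rw [if_pos h3]
    · have h4 : h ≤ (x + s) % (2 * h + 1) ∧ (x + s) % (2 * h + 1) ≤ h + 2 * D := by omega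
      apply hno (2 * D + 1 + ((x + s) % (2 * h + 1) - h)) (Finset.mem_range.2 (by omega))
      simp only [tg]
      rw [if_neg (by omega)]
      omega

/-- several moduli with walls -/
lemma moduli (D n : ℕ) : ∀ Q : ℕ, 0 < Q → ∃ h s : Fin n → ℕ, (∀ a, 1 ≤ h a) ∧
    (∀ a, Nat.Coprime Q (2 * h a + 1)) ∧
    (∀ a b, a ≠ b → Nat.Coprime (2 * h a + 1) (2 * h b + 1)) ∧
    ∀ (a : Fin n) (x : ℕ), x.Prime → Off (h a) (s a) D x := by
  induction n with
  | zero => exact fun Q _ => ⟨fun _ => 0, fun _ => 0, fun a => a.elim0, fun a => a.elim0,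
      fun a => a.elim0, fun a => a.elim0⟩
  | succ n ih =>
    intro Q hQ
    obtain ⟨h0, s0, a1, a2, a3⟩ := one_modulus Q D hQ
    obtain ⟨h, s, b1, b2, b3, b4⟩ := ih (Q * (2 * h0 + 1)) (Nat.mul_pos hQ (by omega))
    refine ⟨Fin.cons h0 h, Fin.cons s0 s, ?_, ?_, ?_, ?_⟩
    · intro a
      refine Fin.cases ?_ (fun i => ?_) a
      · simpa using a1
      · simpa using b1 i
    · intro a
      refine Fin.cases ?_ (fun i => ?_) a
      · simpa using a2
      · simpa using Nat.Coprime.coprime_mul_right (b2 i)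
    · intro a b
      refine Fin.cases ?_ (fun i => ?_) a
      · refine Fin.cases ?_ (fun j => ?_) b
        · intro h; exact absurd rfl h
        · intro _
          simpa using Nat.Coprime.coprime_mul_left (b2 j)
      · refine Fin.cases ?_ (fun j => ?_) b
        · intro _
          simpa using (Nat.Coprime.coprime_mul_left (b2 i)).symm
        · intro hne
          have : i ≠ j := fun e => hne (by rw [e])
          simpa using b3 i j this
    · intro a
      refine Fin.cases ?_ (fun i => ?_) a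
      · simpa using a3
      · simpa using b4 i

theorem scale (n W D : ℕ) (hW : 0 < W) (hD : 1 ≤ D) :
    ∃ (R : Finset ℕ) (V : ℕ) (l : ℕ → (Fin n → ZMod 2)), 0 < V ∧ (∀ t ∈ R, 0 < t ∧ W ∣ t) ∧
      (∀ c : ℕ → Fin (2 ^ (n + 1) - 2), ∃ x y, 0 < y ∧ y < x ∧ c x = c y ∧ x - y ∈ R) ∧
      (∀ p t : ℕ, p.Prime → t ∈ R → l (p + t) ≠ l p) ∧
      (∀ p t : ℕ, p.Prime → t ≤ D → l (p + t) = l p) ∧
      (∀ x k : ℕ, l (x + V * k) = l x) := by
  classical
  obtain ⟨h, s, h1, h2, h3, h4⟩ := moduli D n W hW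
  set P := ∏ a, (2 * h a + 1) with hP
  have hPpos : 0 < P := Finset.prod_pos fun a _ => by omega
  have : NeZero P := ⟨hPpos.ne'⟩
  let e : ZMod P ≃+* ∀ a, ZMod (2 * h a + 1) :=
    ZMod.prodEquivPi (fun a => 2 * h a + 1) (fun a b hab => h3 a b hab)
  refine ⟨(Finset.Icc 1 (W * P)).filter (fun t => W ∣ t ∧ ∃ a, (t ≡ h a [MOD 2 * h a + 1]) ∨
    (t ≡ h a + 1 [MOD 2 * h a + 1])), P, fun x a => lab (h a) (s a) D x, hPpos, ?_, ?_, ?_, ?_, ?_⟩
  · intro t ht
    rw [Finset.mem_filter, Finset.mem_Icc] at ht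
    exact ⟨ht.1.1, ht.2.1⟩
  · intro c
    by_contra hcon
    push Not at hcon
    have hWP : Nat.Coprime W P := by
      rw [hP]
      exact Nat.Coprime.prod_right (fun i _ => h2 i)
    let u : (∀ a, ZMod (2 * h a + 1)) → ℕ := fun g => (e.symm g * ((W : ZMod P))⁻¹).val
    let X : (∀ a, ZMod (2 * h a + 1)) → ℕ := fun g => W * u g + 1
    have hu : ∀ g, u g < P := fun g => ZMod.val_lt _
    have hX : ∀ g a, ((X g : ℕ) : ZMod (2 * h a + 1)) = g a + 1 := by
      intro g a
      have k1 : ((X g : ℕ) : ZMod P) = e.symm g + 1 := by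
        have k2 : ((W : ZMod P)) * ((W : ZMod P))⁻¹ = 1 := ZMod.coe_mul_inv_eq_one W hWP
        simp only [X, u]
        push_cast
        rw [ZMod.natCast_zmod_val, mul_comm (e.symm g), ← mul_assoc, k2, one_mul]
      have k3 : e ((X g : ℕ) : ZMod P) = g + 1 := by
        rw [k1, map_add, map_one, RingEquiv.apply_symm_apply]
      have k4 : e ((X g : ℕ) : ZMod P) = ((X g : ℕ) : ∀ a, ZMod (2 * h a + 1)) := map_natCast e _
      rw [k4] at k3
      have k5 := congrFun k3 a
      simpa using k5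
    have key : 2 ^ (n + 1) - 1 ≤ (Finset.univ.image (fun g => c (X g))).card := by
      apply Tor.lb n h (fun g => c (X g))
      intro g g' a hc hg
      have m1 : ((X g' : ℕ) : ZMod (2 * h a + 1)) = ((X g + h a : ℕ) : ZMod (2 * h a + 1)) := by
        rw [hX g' a, hg]
        push_cast
        rw [hX g a]
        ring
      have m2 : X g' ≡ X g + h a [MOD 2 * h a + 1] := (ZMod.natCast_eq_natCast_iff _ _ _).1 m1
      have ha := h1 a
      have hug := hu g
      have hug' := hu g'
      rcases lt_trichotomy (X g) (X g') with hlt | heq | hlt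
      · apply hcon (X g') (X g) (Nat.succ_pos _) hlt hc.symm
        rw [Finset.mem_filter, Finset.mem_Icc]
        have hd : X g' - X g = W * (u g' - u g) := by
          simp only [X]
          rw [Nat.mul_sub]
          omega
        refine ⟨⟨by omega, ?_⟩, ?_, a, Or.inl ?_⟩
        · rw [hd]
          exact Nat.mul_le_mul_left _ (by omega)
        · rw [hd]; exact Dvd.intro _ rfl
        · apply Nat.ModEq.add_right_cancel' (X g)
          rw [Nat.sub_add_cancel hlt.le, Nat.add_comm (h a)]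
          exact m2
      · rw [heq] at m2
        have m3 : 0 + X g' ≡ h a + X g' [MOD 2 * h a + 1] := by
          rw [Nat.zero_add, Nat.add_comm (h a)]
          exact m2
        have m4 : 0 ≡ h a [MOD 2 * h a + 1] := Nat.ModEq.add_right_cancel' _ m3
        have m5 : (2 * h a + 1) ∣ h a := (Nat.modEq_zero_iff_dvd).1 m4.symm
        have := Nat.le_of_dvd (by omega) m5
        omega
      · apply hcon (X g) (X g') (Nat.succ_pos _) hlt hc
        rw [Finset.mem_filter, Finset.mem_Icc]
        have hd : X g - X g' = W * (u g - u g') := by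
          simp only [X]
          rw [Nat.mul_sub]
          omega
        refine ⟨⟨by omega, ?_⟩, ?_, a, Or.inr ?_⟩
        · rw [hd]
          exact Nat.mul_le_mul_left _ (by omega)
        · rw [hd]; exact Dvd.intro _ rfl
        · apply Nat.ModEq.add_right_cancel' (X g')
          rw [Nat.sub_add_cancel hlt.le]
          have m3 : h a + 1 + X g' ≡ h a + 1 + (X g + h a) [MOD 2 * h a + 1] :=
            Nat.ModEq.add_left _ m2
          have m4 : h a + 1 + (X g + h a) = X g + (2 * h a + 1) := by ring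
          rw [m4] at m3
          have m5 : X g + (2 * h a + 1) ≡ X g [MOD 2 * h a + 1] := by
            rw [Nat.ModEq, Nat.add_mod_right]
          exact (m3.trans m5).symm
    have hc2 : (Finset.univ.image (fun g => c (X g))).card ≤ 2 ^ (n + 1) - 2 := by
      refine (Finset.card_le_univ _).trans ?_
      rw [Fintype.card_fin]
    have hc3 : 2 ≤ 2 ^ (n + 1) := by
      have : 2 ^ (n + 1) = 2 * 2 ^ n := by ring
      have : 1 ≤ 2 ^ n := Nat.one_le_two_pow
      omega
    omega
  · intro p t hp ht hl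
    rw [Finset.mem_filter] at ht
    obtain ⟨_, _, a, ha⟩ := ht
    have k1 : lab (h a) (s a) D (p + t) = lab (h a) (s a) D p := congrFun hl a
    rcases ha with ha | ha
    · rw [lab_mod _ _ _ _ _ _ ha] at k1
      exact lab_flip _ _ _ _ _ (h4 a p hp) hD (Or.inl rfl) k1
    · rw [lab_mod _ _ _ _ _ _ ha] at k1
      exact lab_flip _ _ _ _ _ (h4 a p hp) hD (Or.inr rfl) k1
  · intro p t hp ht
    funext a
    exact lab_small _ _ _ _ _ (h4 a p hp) ht
  · intro x k
    funext a
    have k1 : (2 * h a + 1) ∣ P * k :=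
      Dvd.dvd.mul_right (Finset.dvd_prod_of_mem _ (Finset.mem_univ a)) _
    have k2 : P * k ≡ 0 [MOD 2 * h a + 1] := (Nat.modEq_zero_iff_dvd).2 k1
    exact lab_mod _ _ _ _ _ _ k2

end Pool.Agent.H3.FC.Wall
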