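import Mathlib
import Pool.Agent.H3.FC.Wall

/-!
All scales together: one set `R`, all ideals.
-/

namespace Pool.Agent.H3.FC.Ideals

open Finset

lemma scale' (n W D : ℕ) : ∃ (R : Finset ℕ) (V : ℕ) (l : ℕ → (Fin n → ZMod 2)),
    0 < W → 1 ≤ D → (0 < V ∧ (∀ t ∈ R, 0 < t ∧ W ∣ t) ∧
      (∀ c : ℕ → Fin (2 ^ (n + 1) - 2), ∃ x y, 0 < y ∧ y < x ∧ c x = c y ∧ x - y ∈ R) ∧
      (∀ p t : ℕ, p.Prime → t ∈ R → l (p + t) ≠ l p) ∧
      (∀ p t : ℕ, p.Prime → t ≤ D → l (p + t) = l p) ∧
      (∀ x k : ℕ, l (x + V * k) = l x)) := by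
  by_cases h : 0 < W ∧ 1 ≤ D
  · obtain ⟨R, V, l, hp⟩ := Wall.scale n W D h.1 h.2
    exact ⟨R, V, l, fun _ _ => hp⟩
  · exact ⟨∅, 1, fun _ _ => 0, fun h1 h2 => absurd ⟨h1, h2⟩ h⟩

theorem main (n : ℕ) : ∃ R : Set ℕ,
    (∀ q : ℕ, 0 < q → ∀ c : ℕ → Fin (2 ^ (n + 1) - 2),
      ∃ x y, 0 < y ∧ y < x ∧ c x = c y ∧ x - y ∈ R ∧ q ∣ x - y) ∧
    (∃ c : ℕ → Fin (2 ^ n), ∀ p q : ℕ, p.Prime → q.Prime → q < p → c p = c q → p - q ∉ R) := by
  classical
  choose Rf Vf lf hf using scale' n
  -- the pair (W, D) of scale j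
  let st : ℕ → ℕ × ℕ := fun j => Nat.rec (1, 1)
    (fun i P => (P.1 * Vf P.1 P.2 * (i + 1 + 1), P.2 + 1 + ∑ t ∈ Rf P.1 P.2, t)) j
  have st0 : st 0 = (1, 1) := rfl
  have stS : ∀ i, st (i + 1) = ((st i).1 * Vf (st i).1 (st i).2 * (i + 1 + 1),
    (st i).2 + 1 + ∑ t ∈ Rf (st i).1 (st i).2, t) := fun i => rfl
  let W : ℕ → ℕ := fun j => (st j).1
  let D : ℕ → ℕ := fun j => (st j).2
  have hD : ∀ j, j + 1 ≤ D j := by
    intro j
    induction j with
    | zero => exact le_rfl
    | succ j ih =>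
      have : D (j + 1) = D j + 1 + ∑ t ∈ Rf (W j) (D j), t := by
        simp only [D, W, stS]
      omega
  have hW : ∀ j, 0 < W j := by
    intro j
    induction j with
    | zero => exact Nat.one_pos
    | succ j ih =>
      have h1 := (hf (W j) (D j) ih (by have := hD j; omega)).1
      have : W (j + 1) = W j * Vf (W j) (D j) * (j + 1 + 1) := by
        simp only [D, W, stS]
      rw [this]
      positivity
  have hs := fun j => hf (W j) (D j) (hW j) (by have := hD j; omega)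
  have hWS : ∀ j, W (j + 1) = W j * Vf (W j) (D j) * (j + 1 + 1) := by
    intro j
    simp only [D, W, stS]
  have hDS : ∀ j, D (j + 1) = D j + 1 + ∑ t ∈ Rf (W j) (D j), t := by
    intro j
    simp only [D, W, stS]
  have hWdvd : ∀ i j, i ≤ j → W i ∣ W j := by
    intro i j hij
    induction j, hij using Nat.le_induction with
    | base => exact dvd_rfl
    | succ j _ ih =>
      rw [hWS, Nat.mul_assoc]
      exact Dvd.dvd.mul_right ih _
  have hVdvd : ∀ i j, i < j → Vf (W i) (D i) ∣ W j := by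
    intro i j hij
    refine dvd_trans ?_ (hWdvd (i + 1) j hij)
    rw [hWS]
    exact Dvd.dvd.mul_right (Dvd.intro_left _ rfl) _
  have hDmono : ∀ i j, i ≤ j → D i ≤ D j := by
    intro i j hij
    induction j, hij using Nat.le_induction with
    | base => exact le_rfl
    | succ j _ ih => rw [hDS]; omega
  have hRD : ∀ i j t, i < j → t ∈ Rf (W i) (D i) → t ≤ D j := by
    intro i j t hij ht
    refine le_trans ?_ (hDmono (i + 1) j hij)
    rw [hDS]
    have := Finset.single_le_sum (f := fun t : ℕ => t) (fun i _ => Nat.zero_le _) ht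
    omega
  let l : ℕ → ℕ → (Fin n → ZMod 2) := fun j => lf (W j) (D j)
  let R : Set ℕ := {t | ∃ j, t ∈ Rf (W j) (D j)}
  let col : ℕ → (Fin n → ZMod 2) := fun x => ∑ j ∈ Finset.range x, (l j x + l j 2)
  -- the sum may be extended
  have hext : ∀ x J, 2 ≤ x → x ≤ J → col x = ∑ j ∈ Finset.range J, (l j x + l j 2) := by
    intro x J hx hJ
    simp only [col]
    refine (Finset.sum_subset (fun i hi => ?_) ?_)
    · rw [Finset.mem_range] at hi ⊢
      omega
    · intro j _ hj
      rw [Finset.mem_range, not_lt] at hj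
      have h1 := (hs j).2.2.2.2.1 2 (x - 2) Nat.prime_two (by have := hD j; omega)
      have h2 : 2 + (x - 2) = x := by omega
      rw [h2] at h1
      have h3 : l j x = l j 2 := h1
      rw [h3]
      funext a
      exact CharTwo.add_self_eq_zero _
  refine ⟨R, ?_, ?_⟩
  · intro q hq c
    obtain ⟨x, y, h1, h2, h3, h4⟩ := (hs q).2.2.1 c
    refine ⟨x, y, h1, h2, h3, ⟨q, h4⟩, ?_⟩
    obtain ⟨_, h5⟩ := (hs q).2.1 _ h4
    refine dvd_trans ?_ h5
    obtain ⟨i, rfl⟩ : ∃ i, q = i + 1 := ⟨q - 1, by omega⟩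
    rcases Nat.eq_zero_or_pos i with rfl | hi
    · exact one_dvd _
    · obtain ⟨k, rfl⟩ : ∃ k, i = k + 1 := ⟨i - 1, by omega⟩
      refine dvd_trans ?_ (hWdvd (k + 1) (k + 1 + 1) (by omega))
      rw [hWS]
      exact Dvd.intro_left _ rfl
  · have hcard : Fintype.card (Fin n → ZMod 2) = 2 ^ n := by
      rw [Fintype.card_fun, ZMod.card, Fintype.card_fin]
    let e := Fintype.equivFinOfCardEq hcard
    refine ⟨fun x => e (col x), ?_⟩
    rintro p q hp hq hlt hc ⟨j, hj⟩
    have hc' : col p = col q := e.injective hc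
    set t := p - q with ht
    have hpq : p = q + t := by omega
    have hq2 := hq.two_le
    have h1 := hext p (p + j + 1) hp.two_le (by omega)
    have h2 := hext q (p + j + 1) hq2 (by omega)
    rw [h1, h2, Finset.sum_add_distrib, Finset.sum_add_distrib] at hc'
    have h3 := add_right_cancel hc'
    have hj' : j ∈ Finset.range (p + j + 1) := Finset.mem_range.2 (by omega)
    rw [← Finset.add_sum_erase _ _ hj', ← Finset.add_sum_erase _ _ hj'] at h3
    have h4 : ∑ i ∈ (Finset.range (p + j + 1)).erase j, l i p =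
        ∑ i ∈ (Finset.range (p + j + 1)).erase j, l i q := by
      apply Finset.sum_congr rfl
      intro i hi
      have hij : i ≠ j := Finset.ne_of_mem_erase hi
      rcases Nat.lt_or_ge i j with h5 | h5
      · obtain ⟨k, hk⟩ := dvd_trans (hVdvd i j h5) ((hs j).2.1 t hj).2
        have h6 := (hs i).2.2.2.2.2 q k
        rw [← hk, ← hpq] at h6
        exact h6
      · have h6 := (hs i).2.2.2.2.1 q t hq (hRD j i t (by omega) hj)
        rw [← hpq] at h6
        exact h6
    rw [h4] at h3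
    have h7 := add_right_cancel h3
    have h8 := (hs j).2.2.2.1 q t hq hj
    rw [← hpq] at h8
    exact h8 h7

end Pool.Agent.H3.FC.Ideals
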