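import Mathlib
import Pool.Agent.H3.FC.Nut

/-!
One set `R` for all scales: the primes up to `N` need only slowly growing many colours, the
integers up to `N` need more than any prescribed function of that number.
-/

namespace Pool.Agent.H3.FC.Slow

open Finset Filter

/-- one scale -/
lemma exists_scale (k m : ℕ) (hm : 0 < m) :
    ∃ (R : Finset ℕ) (L : ℕ) (c : ℕ → Fin 2), 0 < L ∧ (∀ r ∈ R, 0 < r ∧ m ∣ r) ∧
      (∀ (n : ℕ) (A : Finset ℕ), A ⊆ Finset.Ico n (n + L) → L ≤ k * A.card →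
        ∃ x ∈ A, ∃ y ∈ A, y < x ∧ x - y ∈ R) ∧
      (∀ p q : ℕ, p.Prime → q.Prime → q < p → c p = c q → p - q ∉ R) := by
  obtain ⟨R, L, h1, h2, h3, _, c, h5⟩ := Pool.Agent.H3.FC.Nut.nut k m hm
  exact ⟨R, L, c, h1, h2, h3, h5⟩

/-- modulus of the scale `j` placed beyond `n` -/
def md (n j : ℕ) : ℕ := (n + 1) * (j + 1).factorial

lemma md_pos (n j : ℕ) : 0 < md n j := Nat.mul_pos (Nat.succ_pos n) (Nat.factorial_pos _)

noncomputable def Rs (k n j : ℕ) : Finset ℕ := (exists_scale k (md n j) (md_pos n j)).choose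

noncomputable def Ls (k n j : ℕ) : ℕ :=
  (exists_scale k (md n j) (md_pos n j)).choose_spec.choose

noncomputable def Cs (k n j : ℕ) : ℕ → Fin 2 :=
  (exists_scale k (md n j) (md_pos n j)).choose_spec.choose_spec.choose

lemma scale_spec (k n j : ℕ) : 0 < Ls k n j ∧ (∀ r ∈ Rs k n j, 0 < r ∧ md n j ∣ r) ∧
      (∀ (a : ℕ) (A : Finset ℕ), A ⊆ Finset.Ico a (a + Ls k n j) → Ls k n j ≤ k * A.card →
        ∃ x ∈ A, ∃ y ∈ A, y < x ∧ x - y ∈ Rs k n j) ∧
      (∀ p q : ℕ, p.Prime → q.Prime → q < p → Cs k n j p = Cs k n j q → p - q ∉ Rs k n j) :=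
  (exists_scale k (md n j) (md_pos n j)).choose_spec.choose_spec.choose_spec

section

variable (Φ : ℕ → ℕ) (thr : ℕ → ℕ)

def kk (j : ℕ) : ℕ := 2 * (j + 1 + ∑ v ∈ Finset.range (2 ^ (j + 3)), Φ v)

lemma le_kk (j v k : ℕ) (hv : v < 2 ^ (j + 3)) (hk : k ≤ j + 1) : 2 * (k + Φ v) ≤ kk Φ j := by
  have h := Finset.single_le_sum (f := Φ) (fun i _ => Nat.zero_le _) (Finset.mem_range.2 hv)
  unfold kk
  omega

/-- positions of the scales -/
noncomputable def NN : ℕ → ℕ
  | 0 => thr 0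
  | j + 1 => max (thr (j + 1)) (NN j + 1 + Ls (kk Φ j) (NN j) j)

lemma thr_le_NN (j : ℕ) : thr j ≤ NN Φ thr j := by
  cases j with
  | zero => exact le_rfl
  | succ j => exact le_max_left _ _

lemma NN_succ (j : ℕ) : NN Φ thr j + 1 + Ls (kk Φ j) (NN Φ thr j) j ≤ NN Φ thr (j + 1) :=
  le_max_right _ _

lemma NN_strictMono : StrictMono (NN Φ thr) := by
  apply strictMono_nat_of_lt_succ
  intro j
  have := NN_succ Φ thr j
  omega

lemma exists_J (n : ℕ) : ∃ j, n < NN Φ thr j :=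
  ⟨n + 1, lt_of_lt_of_le (Nat.lt_succ_self n) ((NN_strictMono Φ thr).id_le (n + 1))⟩

open Classical in
/-- number of scales which are used at `n` -/
noncomputable def J (n : ℕ) : ℕ := Nat.find (exists_J Φ thr n)

open Classical in
lemma lt_J_iff (n j : ℕ) : j < J Φ thr n ↔ NN Φ thr j ≤ n := by
  constructor
  · intro h
    have := Nat.find_min (exists_J Φ thr n) h
    omega
  · intro h
    by_contra hcon
    push Not at hcon
    have h1 := Nat.find_spec (exists_J Φ thr n)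
    have h2 := (NN_strictMono Φ thr).monotone hcon
    unfold J at h2
    omega

lemma J_mono {a b : ℕ} (h : a ≤ b) : J Φ thr a ≤ J Φ thr b := by
  by_contra hcon
  push Not at hcon
  have h1 := (lt_J_iff Φ thr a (J Φ thr b)).1 hcon
  have h2 := (lt_J_iff Φ thr b (J Φ thr b)).2 (h1.trans h)
  omega

/-- the colour of scale `j` -/
noncomputable def cj (j : ℕ) : ℕ → Fin 2 := Cs (kk Φ j) (NN Φ thr j) j

/-- differences of scale `j` -/
noncomputable def Rj (j : ℕ) : Finset ℕ := Rs (kk Φ j) (NN Φ thr j) j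

noncomputable def cl (n : ℕ) : List (Fin 2) :=
  List.ofFn (fun i : Fin (J Φ thr n) => cj Φ thr i n)

lemma cl_length (n : ℕ) : (cl Φ thr n).length = J Φ thr n := by
  unfold cl
  simp

lemma cl_getElem? (n j : ℕ) (hj : j < J Φ thr n) : (cl Φ thr n)[j]? = some (cj Φ thr j n) := by
  unfold cl
  rw [List.getElem?_ofFn]
  simp [hj]

lemma cl_ne {p q j : ℕ} (hp : p.Prime) (hq : q.Prime) (hqp : q < p)
    (hR : p - q ∈ Rj Φ thr j) : cl Φ thr p ≠ cl Φ thr q := by
  intro h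
  have hs := scale_spec (kk Φ j) (NN Φ thr j) j
  obtain ⟨h0, h1⟩ := hs.2.1 _ hR
  have h2 := Nat.le_of_dvd h0 h1
  have h3 : NN Φ thr j + 1 ≤ md (NN Φ thr j) j := by
    unfold md
    exact Nat.le_mul_of_pos_right _ (Nat.factorial_pos _)
  have h4 : j < J Φ thr p := (lt_J_iff Φ thr p j).2 (by omega)
  have h5 : J Φ thr p = J Φ thr q := by
    rw [← cl_length Φ thr p, ← cl_length Φ thr q, h]
  have h6 := cl_getElem? Φ thr p j h4
  have h7 := cl_getElem? Φ thr q j (h5 ▸ h4)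
  rw [h, h7] at h6
  have h8 : cj Φ thr j q = cj Φ thr j p := Option.some.inj h6
  exact hs.2.2.2 p q hp hq hqp h8.symm hR

lemma lists_card (K : ℕ) : ({l : List (Fin 2) | l.length ≤ K} : Set (List (Fin 2))).Finite ∧
    ({l : List (Fin 2) | l.length ≤ K} : Set (List (Fin 2))).ncard < 2 ^ (K + 1) := by
  classical
  set F : Finset (List (Fin 2)) := (Finset.range (K + 1)).biUnion
    (fun i => (Finset.univ : Finset (Fin i → Fin 2)).image (fun f => List.ofFn f)) with hF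
  have hsub : ({l : List (Fin 2) | l.length ≤ K} : Set (List (Fin 2))) ⊆ (F : Set (List (Fin 2))) := by
    intro l hl
    rw [Set.mem_ofPred_eq] at hl
    rw [Finset.mem_coe, hF, Finset.mem_biUnion]
    refine ⟨l.length, Finset.mem_range.2 (by omega), ?_⟩
    rw [Finset.mem_image]
    exact ⟨l.get, Finset.mem_univ _, List.ofFn_get l⟩
  refine ⟨F.finite_toSet.subset hsub, ?_⟩
  have hcard : F.card < 2 ^ (K + 1) := by
    have h1 : F.card ≤ ∑ i ∈ Finset.range (K + 1), 2 ^ i := by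
      refine le_trans Finset.card_biUnion_le ?_
      apply Finset.sum_le_sum
      intro i _
      refine le_trans Finset.card_image_le ?_
      simp
    have h2 : ∑ i ∈ Finset.range (K + 1), 2 ^ i < 2 ^ (K + 1) := by
      have h3 := Nat.geomSum_lt (m := 2) (n := K + 1) (s := Finset.range (K + 1)) le_rfl
        (fun k hk => Finset.mem_range.1 hk)
      exact h3
    omega
  calc ({l : List (Fin 2) | l.length ≤ K} : Set (List (Fin 2))).ncard
      ≤ (F : Set (List (Fin 2))).ncard := Set.ncard_le_ncard hsub F.finite_toSet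
    _ = F.card := Set.ncard_coe_finset F
    _ < 2 ^ (K + 1) := hcard

/-- the colouring -/
noncomputable def col (n : ℕ) : ℕ := Encodable.encode (cl Φ thr n)

lemma colours_lt (N : ℕ) :
    (col Φ thr '' {p : ℕ | p.Prime ∧ p ≤ N}).ncard < 2 ^ (J Φ thr N + 1) := by
  obtain ⟨hfin, hlt⟩ := lists_card (J Φ thr N)
  have h1 : col Φ thr '' {p : ℕ | p.Prime ∧ p ≤ N} ⊆
      Encodable.encode '' {l : List (Fin 2) | l.length ≤ J Φ thr N} := by
    rintro _ ⟨p, ⟨_, hp⟩, rfl⟩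
    refine ⟨cl Φ thr p, ?_, rfl⟩
    rw [Set.mem_ofPred_eq, cl_length]
    exact J_mono Φ thr hp
  calc (col Φ thr '' {p : ℕ | p.Prime ∧ p ≤ N}).ncard
      ≤ (Encodable.encode '' {l : List (Fin 2) | l.length ≤ J Φ thr N}).ncard :=
        Set.ncard_le_ncard h1 (hfin.image _)
    _ ≤ ({l : List (Fin 2) | l.length ≤ J Φ thr N} : Set (List (Fin 2))).ncard :=
        Set.ncard_image_le hfin
    _ < 2 ^ (J Φ thr N + 1) := hlt

end

/-- pigeonhole in an interval -/
lemma dense_class (K L : ℕ) (_hL : 0 < L) (d : ℕ → Fin K) (a : ℕ) :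
    ∃ i, L ≤ K * ((Finset.Ico a (a + L)).filter (fun x => d x = i)).card := by
  by_contra hcon
  push Not at hcon
  have hK : 0 < K := (d 0).pos
  have h1 : (Finset.Ico a (a + L)).card =
      ∑ i : Fin K, ((Finset.Ico a (a + L)).filter (fun x => d x = i)).card :=
    Finset.card_eq_sum_card_fiberwise (fun x _ => Finset.mem_coe.2 (Finset.mem_univ _))
  have h2 : ∑ i : Fin K, K * ((Finset.Ico a (a + L)).filter (fun x => d x = i)).card <
      ∑ _i : Fin K, L := by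
    apply Finset.sum_lt_sum_of_nonempty
    · exact ⟨⟨0, hK⟩, Finset.mem_univ _⟩
    · intro i _
      exact hcon i
  rw [← Finset.mul_sum, ← h1] at h2
  simp at h2

/-- a dense set in a long interval is dense in a short one -/
lemma dense_sub (K L N n : ℕ) (hL : 0 < L) (hLN : L ≤ N) (A : Finset ℕ)
    (hA : A ⊆ Finset.Ico n (n + N)) (hc : N ≤ K * A.card) :
    ∃ a, L ≤ 2 * K * (A.filter (fun x => x ∈ Finset.Ico a (a + L))).card := by
  by_contra hcon
  push Not at hcon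
  have h1 : A.card = ∑ i ∈ Finset.range (N / L + 1),
      (A.filter (fun x => (x - n) / L = i)).card := by
    apply Finset.card_eq_sum_card_fiberwise
    intro x hx
    have hx' := Finset.mem_Ico.1 (hA hx)
    rw [Finset.mem_coe, Finset.mem_range]
    have : (x - n) / L ≤ N / L := Nat.div_le_div_right (by omega)
    exact Nat.lt_succ_of_le this
  have h2 : ∀ i ∈ Finset.range (N / L + 1),
      2 * K * (A.filter (fun x => (x - n) / L = i)).card < L := by
    intro i _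
    refine lt_of_le_of_lt (Nat.mul_le_mul_left _ (Finset.card_le_card ?_)) (hcon (n + i * L))
    intro x hx
    rw [Finset.mem_filter] at hx ⊢
    refine ⟨hx.1, ?_⟩
    have hx' := Finset.mem_Ico.1 (hA hx.1)
    have h3 := Nat.div_add_mod (x - n) L
    have h4 := Nat.mod_lt (x - n) hL
    rw [hx.2] at h3
    have h5 : L * i = i * L := Nat.mul_comm _ _
    rw [Finset.mem_Ico]
    omega
  have h3 : ∑ i ∈ Finset.range (N / L + 1),
      2 * K * (A.filter (fun x => (x - n) / L = i)).card < ∑ _i ∈ Finset.range (N / L + 1), L :=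
    Finset.sum_lt_sum_of_nonempty ⟨0, Finset.mem_range.2 (Nat.succ_pos _)⟩ h2
  rw [← Finset.mul_sum, ← h1, Finset.sum_const, Finset.card_range, smul_eq_mul] at h3
  have h4 : (N / L + 1) * L ≤ 2 * N := by
    have := Nat.div_mul_le_self N L
    rw [Nat.add_mul]
    omega
  have h5 : 2 * N ≤ 2 * K * A.card := by
    rw [Nat.mul_assoc]
    omega
  omega

theorem slow (Φ ω : ℕ → ℕ) (hω : Tendsto ω atTop atTop) :
    ∃ (R : Set ℕ) (c : ℕ → ℕ),
      (∀ q k : ℕ, 0 < q → ∀ d : ℕ → Fin k,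
        ∃ x y : ℕ, 0 < y ∧ y < x ∧ d x = d y ∧ x - y ∈ R ∧ q ∣ x - y) ∧
      (∀ q k : ℕ, 0 < q → ∃ N0, ∀ N, N0 ≤ N → ∀ (n : ℕ) (A : Finset ℕ),
        A ⊆ Finset.Ico n (n + N) →
        N ≤ (k + Φ ((c '' {p : ℕ | p.Prime ∧ p ≤ N}).ncard)) * A.card →
        ∃ x ∈ A, ∃ y ∈ A, y < x ∧ x - y ∈ R ∧ q ∣ x - y) ∧
      (∀ p q : ℕ, p.Prime → q.Prime → q < p → c p = c q → p - q ∉ R) ∧
      (∀ N, (c '' {p : ℕ | p.Prime ∧ p ≤ N}).ncard ≤ max 1 (ω N)) := by
  classical
  have hthr : ∀ j : ℕ, ∃ N1, ∀ N, N1 ≤ N → 2 ^ (j + 2) ≤ ω N := fun j =>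
    (tendsto_atTop_atTop.1 hω) (2 ^ (j + 2))
  choose thr hthr' using hthr
  have hmain : ∀ q k : ℕ, 0 < q → ∃ N0, ∀ N, N0 ≤ N → ∀ (n : ℕ) (A : Finset ℕ),
        A ⊆ Finset.Ico n (n + N) →
        N ≤ (k + Φ ((col Φ thr '' {p : ℕ | p.Prime ∧ p ≤ N}).ncard)) * A.card →
        ∃ x ∈ A, ∃ y ∈ A, y < x ∧ x - y ∈ {t | ∃ j, t ∈ Rj Φ thr j} ∧ q ∣ x - y := by
    intro q k hq
    refine ⟨NN Φ thr (q + k + 1), ?_⟩
    intro N hN n A hA hd
    have hJ : q + k + 1 < J Φ thr N := (lt_J_iff Φ thr N _).2 hN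
    obtain ⟨j, hj⟩ : ∃ j, J Φ thr N = j + 2 := ⟨J Φ thr N - 2, by omega⟩
    have h1 := colours_lt Φ thr N
    rw [hj] at h1
    set w := (col Φ thr '' {p : ℕ | p.Prime ∧ p ≤ N}).ncard with hw
    have hΦ : 2 * (k + Φ w) ≤ kk Φ j := le_kk Φ j w k h1 (by omega)
    obtain ⟨g1, g2, g3, _⟩ := scale_spec (kk Φ j) (NN Φ thr j) j
    have h2 : NN Φ thr (j + 1) ≤ N := (lt_J_iff Φ thr N _).1 (by omega)
    have h3 := NN_succ Φ thr j
    obtain ⟨a, ha⟩ := dense_sub (k + Φ w) (Ls (kk Φ j) (NN Φ thr j) j) N n g1 (by omega) A hA hd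
    obtain ⟨x, hx, y, hy, hlt, hR⟩ := g3 a (A.filter (fun x => x ∈ Finset.Ico a (a + Ls (kk Φ j)
      (NN Φ thr j) j))) (fun x hx => (Finset.mem_filter.1 hx).2)
      (ha.trans (Nat.mul_le_mul_right _ hΦ))
    rw [Finset.mem_filter] at hx hy
    refine ⟨x, hx.1, y, hy.1, hlt, ⟨j, hR⟩, ?_⟩
    refine dvd_trans ?_ (g2 _ hR).2
    unfold md
    exact Dvd.dvd.mul_left (Nat.dvd_factorial hq (by omega)) _
  refine ⟨{t | ∃ j, t ∈ Rj Φ thr j}, col Φ thr, ?_, hmain, ?_, ?_⟩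
  · intro q k hq d
    obtain ⟨N0, hN0⟩ := hmain q k hq
    obtain ⟨i, hi⟩ := dense_class k (N0 + 1) (Nat.succ_pos _) d 1
    obtain ⟨x, hx, y, hy, hlt, hR, hdv⟩ := hN0 (N0 + 1) (Nat.le_succ _) 1 _
      (Finset.filter_subset _ _) (hi.trans (Nat.mul_le_mul_right _ (Nat.le_add_right _ _)))
    rw [Finset.mem_filter, Finset.mem_Ico] at hx hy
    exact ⟨x, y, by omega, hlt, hx.2.trans hy.2.symm, hR, hdv⟩
  · rintro p q hp hq hlt hc ⟨j, hR⟩
    exact cl_ne Φ thr hp hq hlt hR (Encodable.encode_injective hc)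
  · intro N
    have h1 := colours_lt Φ thr N
    rcases Nat.eq_zero_or_pos (J Φ thr N) with h0 | h0
    · rw [h0] at h1
      refine le_trans ?_ (le_max_left _ _)
      norm_num at h1
      omega
    · refine le_trans ?_ (le_max_right _ _)
      have h2 : NN Φ thr (J Φ thr N - 1) ≤ N := (lt_J_iff Φ thr N _).1 (by omega)
      have h3 := hthr' (J Φ thr N - 1) N ((thr_le_NN Φ thr _).trans h2)
      have h4 : J Φ thr N - 1 + 2 = J Φ thr N + 1 := by omega
      rw [h4] at h3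
      omega

end Pool.Agent.H3.FC.Slow
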